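import Mathlib

set_option autoImplicit false

open Complex Filter Topology Metric

namespace Pool.Agent.Results.MP_061dbe_an.NoSigmaNeighbourhood

/-- The class `A`: holomorphic on the unit disc, `f(0)=0`, `f'(0)=1`. -/
def ClassA (f : ℂ → ℂ) : Prop :=
  DifferentiableOn ℂ f (ball (0 : ℂ) 1) ∧ f 0 = 0 ∧ deriv f 0 = 1

/-- The class `S`: the univalent members of `A`. -/
def ClassS (f : ℂ → ℂ) : Prop := ClassA f ∧ Set.InjOn f (ball (0 : ℂ) 1)

/-- The Taylor coefficient of `f` at the origin. -/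
noncomputable def coeff (f : ℂ → ℂ) (n : ℕ) : ℂ := iteratedDeriv n f 0 / (n.factorial : ℂ)

/-- The Hadamard product `(f * g)(z) = ∑ a_n b_n z^n`. -/
noncomputable def hadamard (f g : ℂ → ℂ) (z : ℂ) : ℂ := ∑' n : ℕ, coeff f n * coeff g n * z ^ n

/-- The neighbourhood `Σ_δ(f)`. -/
def Sigma (δ : ℝ) (f : ℂ → ℂ) : Set (ℂ → ℂ) :=
  {g | ClassA g ∧ ∀ z ∈ ball (0 : ℂ) 1,
    ‖(deriv g z - deriv f z) - (g z - f z) / z‖ + ‖(deriv g z - deriv f z) + (g z - f z) / z‖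
      < 2 * δ}

/-- The dual `S^*` of the class `S`. -/
def dualS : Set (ℂ → ℂ) :=
  {f | ClassA f ∧ ∀ g, ClassS g → ∀ z : ℂ, 0 < ‖z‖ → ‖z‖ < 1 → hadamard f g z ≠ 0}

/-! ### power series on the disc -/

def PS (f : ℂ → ℂ) (a : ℕ → ℂ) : Prop := ∀ z ∈ ball (0 : ℂ) 1, HasSum (fun n => a n * z ^ n) (f z)

theorem PS.of_diff {f : ℂ → ℂ} (hf : DifferentiableOn ℂ f (ball 0 1)) : PS f (coeff f) := by
  intro z hz
  have h := Complex.hasSum_taylorSeries_on_ball hf hz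
  have e : (fun n : ℕ => coeff f n * z ^ n) =
      (fun n : ℕ ↦ (n.factorial : ℂ)⁻¹ • (z - 0) ^ n • iteratedDeriv n f 0) := by
    funext n
    simp only [coeff, sub_zero, smul_eq_mul]
    ring
  rw [e]
  exact h

theorem PS.summable_norm {f : ℂ → ℂ} {a : ℕ → ℂ} (hf : PS f a) {r : ℝ} (h0 : 0 ≤ r) (h1 : r < 1) :
    Summable (fun n => ‖a n‖ * r ^ n) := by
  have h := (hf (r : ℂ) (by simpa [abs_of_nonneg h0] using h1)).summable.norm
  refine h.congr (fun n => ?_)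
  simp [abs_of_nonneg h0]

theorem PS.hasFPowerSeries {a : ℕ → ℂ} {f : ℂ → ℂ} (ha : PS f a) :
    HasFPowerSeriesOnBall f (FormalMultilinearSeries.ofScalars ℂ a) 0 1 := by
  refine ⟨?_, by norm_num, ?_⟩
  · refine ENNReal.le_of_forall_nnreal_lt fun r hr => ?_
    have hr1 : (r : ℝ) < 1 := by exact_mod_cast hr
    apply FormalMultilinearSeries.le_radius_of_summable_norm
    have := ha.summable_norm r.2 hr1
    refine Summable.of_nonneg_of_le (fun n => by positivity) (fun n => ?_) this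
    have h3 : ‖FormalMultilinearSeries.ofScalars ℂ a n‖ ≤ ‖a n‖ := by simp
    exact mul_le_mul_of_nonneg_right h3 (pow_nonneg r.2 n)
  · intro y hy
    have hy1 : ‖y‖ < 1 := by
      have : ‖y‖₊ < 1 := by
        simpa [Metric.eball, edist_zero_right, enorm_eq_nnnorm] using hy
      exact_mod_cast this
    have := ha y (by simpa using hy1)
    simpa [FormalMultilinearSeries.ofScalars, smul_eq_mul, mul_comm] using this

theorem PS.unique {a b : ℕ → ℂ} {f : ℂ → ℂ} (ha : PS f a) (hb : PS f b) : a = b := by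
  have h := ha.hasFPowerSeries.hasFPowerSeriesAt.eq_formalMultilinearSeries
    hb.hasFPowerSeries.hasFPowerSeriesAt
  funext n
  have h2 := congrArg (fun p => FormalMultilinearSeries.coeff p n) h
  simpa [FormalMultilinearSeries.coeff_ofScalars] using h2

theorem PS.differentiableOn {a : ℕ → ℂ} {f : ℂ → ℂ} (ha : PS f a) :
    DifferentiableOn ℂ f (ball (0 : ℂ) 1) := by
  intro z hz
  have hz' : ‖z‖ < 1 := by simpa using hz
  obtain ⟨ρ, hρ1, hρ2⟩ := exists_between hz'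
  have hρ0 : 0 ≤ ρ := (norm_nonneg z).trans hρ1.le
  have hd : DifferentiableOn ℂ (fun w => ∑' n, a n * w ^ n) (Metric.ball (0 : ℂ) ρ) := by
    refine Complex.differentiableOn_tsum_of_summable_norm (ha.summable_norm hρ0 hρ2)
      (fun n => by fun_prop) Metric.isOpen_ball ?_
    intro n w hw
    have hw' : ‖w‖ < ρ := by simpa using hw
    rw [norm_mul, norm_pow]
    gcongr
  have hz2 : z ∈ Metric.ball (0 : ℂ) ρ := by simpa using hρ1
  have hd2 := (hd z hz2).differentiableAt (Metric.isOpen_ball.mem_nhds hz2)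
  refine (hd2.congr_of_eventuallyEq ?_).differentiableWithinAt
  filter_upwards [Metric.isOpen_ball.mem_nhds hz] with w hw
  exact (ha w hw).tsum_eq.symm

theorem PS.congr {f g : ℂ → ℂ} {a : ℕ → ℂ} (hf : PS f a) (h : ∀ z ∈ ball (0 : ℂ) 1, g z = f z) :
    PS g a := by
  intro z hz
  rw [h z hz]
  exact hf z hz

theorem PS.add {f g : ℂ → ℂ} {a b : ℕ → ℂ} (hf : PS f a) (hg : PS g b) :
    PS (fun z => f z + g z) (fun n => a n + b n) := by
  intro z hz
  have h := (hf z hz).add (hg z hz)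
  simpa [add_mul] using h

theorem PS.const_mul {f : ℂ → ℂ} {a : ℕ → ℂ} (c : ℂ) (hf : PS f a) :
    PS (fun z => c * f z) (fun n => c * a n) := by
  intro z hz
  have h := (hf z hz).mul_left c
  simpa [mul_assoc] using h

/-- shift of a sequence -/
def shiftSeq (a : ℕ → ℂ) : ℕ → ℂ
  | 0 => 0
  | n + 1 => a n

theorem PS.shift {f : ℂ → ℂ} {a : ℕ → ℂ} (hf : PS f a) :
    PS (fun z => z * f z) (shiftSeq a) := by
  intro z hz
  have h := (hf z hz).mul_left z
  rw [← hasSum_nat_add_iff' 1]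
  have e : (fun n : ℕ => shiftSeq a (n + 1) * z ^ (n + 1)) = (fun n : ℕ => z * (a n * z ^ n)) := by
    funext n
    simp only [shiftSeq]
    ring
  rw [e]
  simpa [shiftSeq] using h

theorem PS.rot {f : ℂ → ℂ} {a : ℕ → ℂ} (hf : PS f a) {ζ : ℂ} (hζ : ‖ζ‖ = 1) :
    PS (fun z => f (ζ * z)) (fun n => a n * ζ ^ n) := by
  intro z hz
  have h := hf (ζ * z) (by simpa [hζ] using hz)
  refine h.congr_fun ?_
  intro n
  rw [mul_pow]
  ring

/-! ### the powers of `1 - z` -/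

/-- binomial coefficients: `(1-z)^(-c) = ∑ pc c m z^m` -/
noncomputable def pc (c : ℂ) (m : ℕ) : ℂ := ∏ k ∈ Finset.range m, (c + k) / (k + 1)

/-- `(1-z)^(-c)` -/
noncomputable def P (c z : ℂ) : ℂ := exp (-c * log (1 - z))

/-- Pochhammer symbol -/
noncomputable def A (c : ℂ) (m : ℕ) : ℂ := ∏ k ∈ Finset.range m, (c + k)

theorem one_sub_re {z : ℂ} (hz : z ∈ Metric.ball (0:ℂ) 1) : 0 < (1 - z).re := by
  have h1 : ‖z‖ < 1 := by simpa using hz
  have h2 := abs_re_le_norm z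
  have h3 := le_abs_self z.re
  simp only [sub_re, one_re]
  linarith

theorem one_sub_mem {z : ℂ} (hz : z ∈ Metric.ball (0:ℂ) 1) : 1 - z ∈ slitPlane :=
  Or.inl (one_sub_re hz)

theorem one_sub_ne {z : ℂ} (hz : z ∈ Metric.ball (0:ℂ) 1) : 1 - z ≠ 0 :=
  slitPlane_ne_zero (one_sub_mem hz)

theorem P_add (c d z : ℂ) : P (c + d) z = P c z * P d z := by
  unfold P; rw [← exp_add]; congr 1; ring

theorem P_zero (c : ℂ) : P c 0 = 1 := by unfold P; simp

theorem P_ne (c z : ℂ) : P c z ≠ 0 := exp_ne_zero _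

theorem P_one {z : ℂ} (hz : z ∈ Metric.ball (0:ℂ) 1) : P 1 z = 1 / (1 - z) := by
  unfold P
  rw [neg_one_mul, exp_neg, exp_log (one_sub_ne hz), one_div]

theorem P_deriv (c : ℂ) {z : ℂ} (hz : z ∈ Metric.ball (0:ℂ) 1) :
    HasDerivAt (P c) (c * P (c + 1) z) z := by
  have h1 : HasDerivAt (fun w : ℂ => 1 - w) (-1) z := by
    simpa using (hasDerivAt_id z).const_sub 1
  have h2 := ((h1.clog (one_sub_mem hz)).const_mul (-c)).cexp
  have h3 : exp (-c * log (1 - z)) * (-c * (-1 / (1 - z))) = c * P (c + 1) z := by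
    rw [P_add, P_one hz]
    unfold P
    ring
  rw [h3] at h2
  exact h2

theorem P_diff (c : ℂ) : DifferentiableOn ℂ (P c) (ball 0 1) :=
  fun _ hz => (P_deriv c hz).differentiableAt.differentiableWithinAt

theorem iterP (c : ℂ) (m : ℕ) : ∀ z ∈ Metric.ball (0:ℂ) 1,
    iteratedDeriv m (P c) z = A c m * P (c + m) z := by
  induction m with
  | zero =>
    intro z hz
    simp [A]
  | succ m ih =>
    intro z hz
    rw [iteratedDeriv_succ]
    have h1 : iteratedDeriv m (P c) =ᶠ[𝓝 z] fun z => A c m * P (c + m) z := by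
      filter_upwards [Metric.isOpen_ball.mem_nhds hz] with w hw
      exact ih w hw
    rw [h1.deriv_eq]
    refine (((P_deriv (c + m) hz).const_mul (A c m))).deriv.trans ?_
    unfold A
    rw [Finset.prod_range_succ]
    push_cast
    rw [add_assoc]
    ring

theorem A_div (c : ℂ) (m : ℕ) : A c m / (m.factorial : ℂ) = pc c m := by
  unfold A pc
  rw [Finset.prod_div_distrib]
  congr 1
  rw [← Finset.prod_range_add_one_eq_factorial]
  push_cast
  rfl

theorem PS_P (c : ℂ) : PS (P c) (pc c) := by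
  have h := PS.of_diff (P_diff c)
  have e : coeff (P c) = pc c := by
    funext m
    unfold coeff
    rw [iterP c m 0 (mem_ball_self one_pos), P_zero, mul_one, A_div]
  rwa [e] at h

/-- the basic function `z (1-z)^(-c)` -/
noncomputable def Q (c z : ℂ) : ℂ := z * P c z

theorem PS_Q (c : ℂ) : PS (Q c) (shiftSeq (pc c)) := (PS_P c).shift

theorem Q_deriv (c : ℂ) {z : ℂ} (hz : z ∈ Metric.ball (0:ℂ) 1) :
    HasDerivAt (Q c) (P c z + z * (c * P (c + 1) z)) z := by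
  have := (hasDerivAt_id z).mul (P_deriv c hz)
  simp only [id, one_mul] at this
  exact this

/-! ### the parameters -/

/-- the parameter of the spirallike function -/
noncomputable def c (s : ℝ) : ℂ := 2 - s ^ 2 + I * s

/-- the exponent parameter of the neighbourhood function -/
noncomputable def b (s : ℝ) : ℂ := -(1 + I * s)

/-! ### univalence of the spirallike function -/

/-- logarithm of `Q c (exp ζ)` -/
noncomputable def ell (s : ℝ) (ζ : ℂ) : ℂ := ζ - c s * log (1 - exp ζ)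

theorem exp_mem {ζ : ℂ} (h : ζ.re < 0) : exp ζ ∈ Metric.ball (0:ℂ) 1 := by
  rw [mem_ball_zero_iff, norm_exp]
  exact Real.exp_lt_one_iff.mpr h

theorem ell_deriv (s : ℝ) {ζ : ℂ} (h : ζ.re < 0) :
    HasDerivAt (ell s) (1 + c s * exp ζ / (1 - exp ζ)) ζ := by
  have h1 : HasDerivAt (fun w : ℂ => 1 - exp w) (-exp ζ) ζ := (hasDerivAt_exp ζ).const_sub 1
  have h2 := (hasDerivAt_id ζ).sub ((h1.clog (one_sub_mem (exp_mem h))).const_mul (c s))
  have h3 : 1 - c s * (-exp ζ / (1 - exp ζ)) = 1 + c s * exp ζ / (1 - exp ζ) := by ring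
  rw [h3] at h2
  exact h2

theorem ell_pos {s : ℝ} (hs0 : 0 < s) (hs1 : s ≤ 1) {ζ : ℂ} (h : ζ.re < 0) :
    0 < ((2 - s ^ 2 - I * s) * (1 + c s * exp ζ / (1 - exp ζ))).re := by
  have hm := exp_mem h
  generalize exp ζ = w at hm
  have hw : ‖w‖ < 1 := by simpa using hm
  have hne := one_sub_ne hm
  have e1 : (2 - s ^ 2 - I * s) * (1 + c s * w / (1 - w)) =
      ((2 - s ^ 2 - (4 - 3 * s ^ 2 + s ^ 4) : ℝ) : ℂ) + ((-s : ℝ) : ℂ) * I +
        ((4 - 3 * s ^ 2 + s ^ 4 : ℝ) : ℂ) * (1 - w)⁻¹ := by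
    unfold c
    have h1 : w / (1 - w) = (1 - w)⁻¹ - 1 := by
      field_simp
      ring
    rw [mul_div_assoc, h1]
    push_cast
    linear_combination ((s : ℂ) ^ 2 - (s : ℂ) ^ 2 * (1 - w)⁻¹) * I_sq
  rw [e1]
  have e2 : (((2 - s ^ 2 - (4 - 3 * s ^ 2 + s ^ 4) : ℝ) : ℂ) + ((-s : ℝ) : ℂ) * I +
        ((4 - 3 * s ^ 2 + s ^ 4 : ℝ) : ℂ) * (1 - w)⁻¹).re =
      2 - s ^ 2 - (4 - 3 * s ^ 2 + s ^ 4) + (4 - 3 * s ^ 2 + s ^ 4) * ((1 - w)⁻¹).re := by
    rw [add_re, add_re, ofReal_re, re_ofReal_mul, re_ofReal_mul, I_re]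
    ring
  rw [e2, inv_re]
  have h3 : 0 < normSq (1 - w) := normSq_pos.mpr hne
  have h4 : 1 / 2 < (1 - w).re / normSq (1 - w) := by
    rw [lt_div_iff₀ h3, normSq_apply]
    simp only [sub_re, one_re, sub_im, one_im]
    have h5 : w.re * w.re + w.im * w.im < 1 := by
      rw [← normSq_apply, normSq_eq_norm_sq]
      nlinarith [norm_nonneg w]
    nlinarith
  have h5 : 0 < 4 - 3 * s ^ 2 + s ^ 4 := by nlinarith [sq_nonneg (s ^ 2 - 3 / 2)]
  have hs2 : s ^ 2 ≤ 1 := by nlinarith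
  have h6 : s ^ 4 ≤ s ^ 2 := by nlinarith [mul_nonneg (sq_nonneg s) (sub_nonneg.mpr hs2)]
  nlinarith [mul_lt_mul_of_pos_left h4 h5]

theorem ell_inj {s : ℝ} (hs0 : 0 < s) (hs1 : s ≤ 1) {ζ ξ : ℂ} (h1 : ζ.re < 0) (h2 : ξ.re < 0)
    (h : ell s ζ = ell s ξ) : ζ = ξ := by
  by_contra hne
  have hD : ζ - ξ ≠ 0 := sub_ne_zero.mpr hne
  let p : ℝ → ℂ := fun s => ξ + s * (ζ - ξ)
  have hp : ∀ s ∈ Set.Icc (0:ℝ) 1, (p s).re < 0 := by
    intro s hs
    have e : (p s).re = (1 - s) * ξ.re + s * ζ.re := by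
      simp only [p, add_re, re_ofReal_mul, sub_re]
      ring
    rw [e]
    rcases eq_or_lt_of_le hs.1 with h0 | h0
    · rw [← h0]; linarith
    · nlinarith [hs.2]
  let u : ℝ → ℝ := fun x => ((2 - s ^ 2 - I * s) * (ell s (p x) / (ζ - ξ))).re
  have hu : ∀ x ∈ Set.Icc (0:ℝ) 1, HasDerivAt u
      (((2 - s ^ 2 - I * s) * (1 + c s * exp (p x) / (1 - exp (p x)))).re) x := by
    intro x hx
    have hps : HasDerivAt p (ζ - ξ) x := by
      have := ((hasDerivAt_id (x:ℝ)).ofReal_comp.mul_const (ζ - ξ)).const_add ξ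
      exact this.congr_deriv (by simp)
    have hc := (ell_deriv s (hp x hx)).comp x hps
    have hc2 := (hc.div_const (ζ - ξ)).const_mul (2 - s ^ 2 - I * s : ℂ)
    have e : (2 - s ^ 2 - I * s) * ((1 + c s * exp (p x) / (1 - exp (p x))) * (ζ - ξ) / (ζ - ξ)) =
        (2 - s ^ 2 - I * s) * (1 + c s * exp (p x) / (1 - exp (p x))) := by
      rw [mul_div_assoc, div_self hD, mul_one]
    rw [e] at hc2
    exact (Complex.reCLM.hasFDerivAt.comp_hasDerivAt x hc2)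
  obtain ⟨x, hx, hx'⟩ := exists_hasDerivAt_eq_slope u _ zero_lt_one
    (fun x hx => (hu x hx).continuousAt.continuousWithinAt)
    (fun x hx => hu x (Set.Ioo_subset_Icc_self hx))
  have hpos := ell_pos hs0 hs1 (hp x (Set.Ioo_subset_Icc_self hx))
  have e0 : u 1 - u 0 = 0 := by
    simp only [u, p]
    have a1 : ξ + ((1:ℝ):ℂ) * (ζ - ξ) = ζ := by push_cast; ring
    have a0 : ξ + ((0:ℝ):ℂ) * (ζ - ξ) = ξ := by push_cast; ring
    rw [a1, a0, h]
    ring
  rw [e0] at hx'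
  simp only [sub_zero, div_one] at hx'
  rw [hx'] at hpos
  exact lt_irrefl _ hpos

theorem ell_add (s : ℝ) (ζ : ℂ) (n : ℤ) :
    ell s (ζ + n * (2 * Real.pi * I)) = ell s ζ + n * (2 * Real.pi * I) := by
  unfold ell
  rw [exp_add, exp_int_mul_two_pi_mul_I, mul_one]
  ring

theorem Q_inj {s : ℝ} (hs0 : 0 < s) (hs1 : s ≤ 1) :
    Set.InjOn (Q (c s)) (Metric.ball (0:ℂ) 1) := by
  intro z hz z' hz' h
  by_cases h0 : z = 0
  · rw [h0] at h ⊢
    unfold Q at h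
    rw [zero_mul] at h
    rcases mul_eq_zero.mp h.symm with h1 | h1
    · exact h1.symm
    · exact absurd h1 (P_ne _ _)
  by_cases h0' : z' = 0
  · rw [h0'] at h ⊢
    unfold Q at h
    rw [zero_mul] at h
    rcases mul_eq_zero.mp h with h1 | h1
    · exact h1
    · exact absurd h1 (P_ne _ _)
  have hlog : ∀ w ∈ Metric.ball (0:ℂ) 1, w ≠ 0 → (log w).re < 0 ∧
      Q (c s) w = exp (ell s (log w)) := by
    intro w hw hw0
    have hw1 : ‖w‖ < 1 := by simpa using hw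
    refine ⟨?_, ?_⟩
    · rw [log_re]
      exact Real.log_neg (norm_pos_iff.mpr hw0) hw1
    · unfold Q ell P
      rw [exp_log hw0, show log w - c s * log (1 - w) = log w + (-c s * log (1 - w)) by ring,
        exp_add, exp_log hw0]
  obtain ⟨r1, e1⟩ := hlog z hz h0
  obtain ⟨r2, e2⟩ := hlog z' hz' h0'
  rw [e1, e2] at h
  obtain ⟨n, hn⟩ := exp_eq_exp_iff_exists_int.mp h
  rw [← ell_add] at hn
  have hre : (log z' + n * (2 * Real.pi * I)).re < 0 := by
    have : (log z' + n * (2 * Real.pi * I)).re = (log z').re := by simp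
    rw [this]; exact r2
  have h3 := ell_inj hs0 hs1 r1 hre hn
  have h4 := congrArg exp h3
  rw [exp_add, exp_int_mul_two_pi_mul_I, mul_one, exp_log h0, exp_log h0'] at h4
  exact h4

theorem Q_mem {s : ℝ} (hs0 : 0 < s) (hs1 : s ≤ 1) : ClassS (Q (c s)) := by
  refine ⟨⟨fun z hz => (Q_deriv _ hz).differentiableAt.differentiableWithinAt, ?_, ?_⟩,
    Q_inj hs0 hs1⟩
  · simp [Q]
  · rw [(Q_deriv (c s) (mem_ball_self one_pos)).deriv, P_zero]
    ring

/-! ### the pairing -/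

noncomputable def t (s : ℝ) (m : ℕ) : ℂ := pc (c s) m * pc (b s) m

noncomputable def X (s : ℝ) (m : ℕ) : ℂ := m * t s m

theorem pc_succ (c : ℂ) (m : ℕ) : pc c (m + 1) = pc c m * ((c + m) / (m + 1)) := by
  unfold pc; rw [Finset.prod_range_succ]

theorem t_zero (s : ℝ) : t s 0 = 1 := by unfold t pc; simp

theorem t_one (s : ℝ) : t s 1 = c s * b s := by
  unfold t
  rw [pc_succ, pc_succ]
  simp [pc]

theorem norm_c_add {s : ℝ} (hs1 : s ≤ 1) (hs0 : 0 < s) (k : ℕ) :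
    ‖c s + k‖ ≤ k + 2 - s ^ 2 / 2 := by
  have hs2 : s ^ 2 ≤ 1 := by nlinarith
  have hk : (0 : ℝ) ≤ k := Nat.cast_nonneg k
  have hpos : 0 ≤ (k : ℝ) + 2 - s ^ 2 / 2 := by linarith
  apply le_of_sq_le_sq _ hpos
  rw [← normSq_eq_norm_sq, normSq_apply]
  have e1 : (c s + k).re = k + 2 - s ^ 2 := by
    unfold c
    simp [← ofReal_pow]
    ring
  have e2 : (c s + k).im = s := by
    unfold c
    simp [← ofReal_pow]
  rw [e1, e2]
  nlinarith [mul_nonneg (sq_nonneg s) hk, mul_nonneg (sq_nonneg s) (sub_nonneg.mpr hs2)]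

theorem norm_pc_c_le {s : ℝ} (hs1 : s ≤ 1) (hs0 : 0 < s) (m : ℕ) :
    ‖pc (c s) m‖ ≤ (m + 1) *
      Real.exp (-((s ^ 2 / 4) * ∑ i ∈ Finset.range m, 1 / ((i : ℝ) + 1))) := by
  induction m with
  | zero => simp [pc]
  | succ m ih =>
    rw [pc_succ, norm_mul, norm_div]
    have hm : (0 : ℝ) ≤ m := Nat.cast_nonneg m
    have e1 : ‖(m : ℂ) + 1‖ = m + 1 := by
      have : (m : ℂ) + 1 = ((m + 1 : ℕ) : ℂ) := by push_cast; ring
      rw [this, norm_natCast]
      push_cast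
      ring
    rw [e1]
    have h1 := norm_c_add hs1 hs0 m
    have h2 : ‖c s + m‖ / (m + 1) ≤ (m + 2) / (m + 1) *
        Real.exp (-((s ^ 2 / 4) * (1 / ((m : ℝ) + 1)))) := by
      have h3 := Real.add_one_le_exp (-((s ^ 2 / 4) * (1 / ((m : ℝ) + 1))))
      have h4 : (m + 2 - s ^ 2 / 2) / (m + 2) ≤ -((s ^ 2 / 4) * (1 / ((m : ℝ) + 1))) + 1 := by
        rw [div_le_iff₀ (by linarith)]
        have e : (-((s ^ 2 / 4) * (1 / ((m : ℝ) + 1))) + 1) * (m + 2) =
            m + 2 - s ^ 2 / 4 * ((m + 2) / (m + 1)) := by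
          field_simp
          ring
        rw [e]
        have h5 : ((m : ℝ) + 2) / (m + 1) ≤ 2 := by
          rw [div_le_iff₀ (by linarith)]
          linarith
        nlinarith [sq_nonneg s]
      have h6 : ‖c s + m‖ / (m + 1) ≤ (m + 2) / (m + 1) * ((m + 2 - s ^ 2 / 2) / (m + 2)) := by
        have : (m + 2) / (m + 1) * ((m + 2 - s ^ 2 / 2) / (m + 2)) = ((m : ℝ) + 2 - s ^ 2 / 2) / (m + 1) := by
          field_simp
        rw [this]
        gcongr
      refine h6.trans ?_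
      apply mul_le_mul_of_nonneg_left (h4.trans h3) (by positivity)
    calc ‖pc (c s) m‖ * (‖c s + m‖ / (m + 1))
        ≤ ((m + 1) * Real.exp (-((s ^ 2 / 4) * ∑ i ∈ Finset.range m, 1 / ((i : ℝ) + 1)))) *
          ((m + 2) / (m + 1) * Real.exp (-((s ^ 2 / 4) * (1 / ((m : ℝ) + 1))))) :=
          mul_le_mul ih h2 (by positivity) (by positivity)
      _ = _ := by
        rw [Finset.sum_range_succ, mul_add, neg_add, Real.exp_add]
        push_cast
        field_simp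
        ring

theorem norm_pc_c_le' {s : ℝ} (hs1 : s ≤ 1) (hs0 : 0 < s) (m : ℕ) :
    ‖pc (c s) m‖ ≤ m + 1 := by
  refine (norm_pc_c_le hs1 hs0 m).trans ?_
  have h : Real.exp (-((s ^ 2 / 4) * ∑ i ∈ Finset.range m, 1 / ((i : ℝ) + 1))) ≤ 1 := by
    rw [Real.exp_le_one_iff, neg_nonpos]
    apply mul_nonneg (by positivity)
    apply Finset.sum_nonneg
    intro i _
    positivity
  have hm : (0 : ℝ) ≤ m := Nat.cast_nonneg m
  nlinarith

theorem norm_b_add {s : ℝ} (k : ℕ) (hk : 1 ≤ k) :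
    ‖b s + (k + 1 : ℕ)‖ ≤ k * (1 + s ^ 2 / (2 * k ^ 2)) := by
  have hk' : (1 : ℝ) ≤ k := by exact_mod_cast hk
  have hpos : 0 ≤ (k : ℝ) * (1 + s ^ 2 / (2 * k ^ 2)) := by positivity
  apply le_of_sq_le_sq _ hpos
  rw [← normSq_eq_norm_sq, normSq_apply]
  have e1 : (b s + (k + 1 : ℕ)).re = k := by
    unfold b
    simp
  have e2 : (b s + (k + 1 : ℕ)).im = -s := by
    unfold b
    simp
  rw [e1, e2]
  have e3 : ((k : ℝ) * (1 + s ^ 2 / (2 * k ^ 2))) ^ 2 = k ^ 2 + s ^ 2 + s ^ 4 / (4 * k ^ 2) := by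
    field_simp
    ring
  rw [e3]
  have : 0 ≤ s ^ 4 / (4 * (k : ℝ) ^ 2) := by positivity
  nlinarith

theorem norm_pc_b {s : ℝ} (hs1 : s ≤ 1 / 10) (hs0 : 0 < s) (n : ℕ) :
    ‖pc (b s) (n + 2)‖ ≤ s * (1 + 3 * s ^ 2 - 2 * s ^ 2 / (n + 1)) / ((n + 2) * (n + 1)) := by
  have hs2 : s ^ 2 ≤ 1 / 100 := by nlinarith
  induction n with
  | zero =>
    have e : pc (b s) (0 + 2) = (1 + I * s) * (I * s) / 2 := by
      rw [zero_add, pc_succ, pc_succ]
      simp [pc, b]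
      ring
    rw [e, norm_div, norm_mul, norm_mul, norm_I, norm_real, Real.norm_eq_abs, abs_of_pos hs0]
    have h1 : ‖1 + I * (s : ℂ)‖ ≤ 1 + s ^ 2 := by
      apply le_of_sq_le_sq _ (by positivity)
      rw [← normSq_eq_norm_sq, normSq_apply]
      simp
      nlinarith [sq_nonneg (s ^ 2)]
    have e2 : ‖(2 : ℂ)‖ = 2 := by simp
    rw [e2]
    push_cast
    have e3 : s * (1 + 3 * s ^ 2 - 2 * s ^ 2 / (0 + 1)) / ((0 + 2) * (0 + 1)) = (1 + s ^ 2) * (1 * s) / 2 := by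
      ring
    rw [e3]
    gcongr
  | succ n ih =>
    rw [show n + 1 + 2 = (n + 2) + 1 by ring, pc_succ, norm_mul, norm_div]
    have hn : (0 : ℝ) ≤ n := Nat.cast_nonneg n
    have e1 : ‖((n + 2 : ℕ) : ℂ) + 1‖ = n + 3 := by
      have : ((n + 2 : ℕ) : ℂ) + 1 = ((n + 3 : ℕ) : ℂ) := by push_cast; ring
      rw [this, norm_natCast]
      push_cast
      ring
    have h1 := norm_b_add (s := s) (n + 1) (by omega)
    rw [show (n + 1 + 1 : ℕ) = n + 2 by ring] at h1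
    rw [e1]
    have h2 : ‖b s + ((n + 2 : ℕ) : ℂ)‖ / (n + 3) ≤
        ((n + 1) * (1 + s ^ 2 / (2 * (n + 1) ^ 2))) / (n + 3) := by
      have : ((n + 1 : ℕ) : ℝ) = n + 1 := by push_cast; ring
      rw [this] at h1
      gcongr
    have hpos : 0 ≤ 1 + 3 * s ^ 2 - 2 * s ^ 2 / ((n : ℝ) + 1) := by
      have : 2 * s ^ 2 / ((n : ℝ) + 1) ≤ 2 * s ^ 2 := by
        apply div_le_self (by positivity)
        linarith
      nlinarith
    calc ‖pc (b s) (n + 2)‖ * (‖b s + ((n + 2 : ℕ) : ℂ)‖ / (n + 3))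
        ≤ (s * (1 + 3 * s ^ 2 - 2 * s ^ 2 / (n + 1)) / ((n + 2) * (n + 1))) *
          (((n + 1) * (1 + s ^ 2 / (2 * (n + 1) ^ 2))) / (n + 3)) :=
          mul_le_mul ih h2 (by positivity) (by positivity)
      _ = s * ((1 + 3 * s ^ 2 - 2 * s ^ 2 / (n + 1)) * (1 + s ^ 2 / (2 * (n + 1) ^ 2))) /
          ((n + 3) * (n + 2)) := by
        field_simp
      _ ≤ s * (1 + 3 * s ^ 2 - 2 * s ^ 2 / (n + 2)) / ((n + 3) * (n + 2)) := by
        gcongr
        have key : (1 + 3 * s ^ 2 - 2 * s ^ 2 / ((n : ℝ) + 1)) * (s ^ 2 / (2 * (n + 1) ^ 2)) ≤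
            2 * s ^ 2 / (n + 1) - 2 * s ^ 2 / (n + 2) := by
          have a1 : 1 + 3 * s ^ 2 - 2 * s ^ 2 / ((n : ℝ) + 1) ≤ 2 := by
            have : 0 ≤ 2 * s ^ 2 / ((n : ℝ) + 1) := by positivity
            linarith
          have a2 : 0 ≤ s ^ 2 / (2 * ((n : ℝ) + 1) ^ 2) := by positivity
          have a3 : (1 + 3 * s ^ 2 - 2 * s ^ 2 / ((n : ℝ) + 1)) * (s ^ 2 / (2 * (n + 1) ^ 2)) ≤
              2 * (s ^ 2 / (2 * (n + 1) ^ 2)) := mul_le_mul_of_nonneg_right a1 a2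
          refine a3.trans ?_
          have a4 : 2 * s ^ 2 / ((n : ℝ) + 1) - 2 * s ^ 2 / (n + 2) =
              s ^ 2 * (2 / ((n + 1) * (n + 2))) := by
            field_simp
            ring
          rw [a4]
          have a5 : 2 * (s ^ 2 / (2 * ((n : ℝ) + 1) ^ 2)) = s ^ 2 * (1 / (n + 1) ^ 2) := by
            field_simp
          rw [a5]
          apply mul_le_mul_of_nonneg_left _ (sq_nonneg s)
          rw [div_le_div_iff₀ (by positivity) (by positivity)]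
          nlinarith
        nlinarith
      _ = _ := by
        push_cast
        ring_nf

noncomputable def E (s : ℝ) (m : ℕ) : ℝ :=
  Real.exp (-((s ^ 2 / 4) * ∑ i ∈ Finset.range m, 1 / ((i : ℝ) + 1)))

theorem E_le (s : ℝ) (m : ℕ) : E s m ≤ 1 := by
  unfold E
  rw [Real.exp_le_one_iff, neg_nonpos]
  apply mul_nonneg (by positivity)
  apply Finset.sum_nonneg
  intro i _
  positivity

theorem E_pos (s : ℝ) (m : ℕ) : 0 < E s m := Real.exp_pos _

theorem norm_t {s : ℝ} (hs1 : s ≤ 1 / 10) (hs0 : 0 < s) (n : ℕ) :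
    ‖t s (n + 2)‖ ≤ s * (1 + 3 * s ^ 2) * (n + 3) / ((n + 2) * (n + 1)) * E s (n + 2) := by
  have h1 := norm_pc_c_le (s := s) (by linarith) hs0 (n + 2)
  have h2 := norm_pc_b hs1 hs0 n
  have h3 : s * (1 + 3 * s ^ 2 - 2 * s ^ 2 / (n + 1)) / (((n : ℝ) + 2) * (n + 1)) ≤
      s * (1 + 3 * s ^ 2) / ((n + 2) * (n + 1)) := by
    have : 0 ≤ 2 * s ^ 2 / ((n : ℝ) + 1) := by positivity
    gcongr
    linarith
  unfold t
  rw [norm_mul]
  calc ‖pc (c s) (n + 2)‖ * ‖pc (b s) (n + 2)‖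
      ≤ ((((n + 2 : ℕ) : ℝ) + 1) * E s (n + 2)) * (s * (1 + 3 * s ^ 2) / ((n + 2) * (n + 1))) :=
        mul_le_mul h1 (h2.trans h3) (norm_nonneg _) (by
          have := E_pos s (n + 2)
          positivity)
    _ = _ := by
      push_cast
      ring

theorem X_bound {s : ℝ} (hs1 : s ≤ 1 / 10) (hs0 : 0 < s) (n : ℕ) :
    ‖X s (n + 2)‖ ≤ E s (n + 2) := by
  unfold X
  rw [norm_mul, norm_natCast]
  have h1 := norm_t hs1 hs0 n
  have hE := E_pos s (n + 2)
  have hn : (0 : ℝ) ≤ n := Nat.cast_nonneg n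
  calc ((n + 2 : ℕ) : ℝ) * ‖t s (n + 2)‖
      ≤ ((n + 2 : ℕ) : ℝ) * (s * (1 + 3 * s ^ 2) * (n + 3) / ((n + 2) * (n + 1)) * E s (n + 2)) := by
        gcongr
    _ = s * (1 + 3 * s ^ 2) * ((n + 3) / (n + 1)) * E s (n + 2) := by
      push_cast
      field_simp
    _ ≤ 1 * E s (n + 2) := by
      apply mul_le_mul_of_nonneg_right _ hE.le
      have h2 : ((n : ℝ) + 3) / (n + 1) ≤ 3 := by
        rw [div_le_iff₀ (by linarith)]
        linarith
      have h3 : s * (1 + 3 * s ^ 2) ≤ 1 / 5 := by nlinarith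
      have h4 : 0 ≤ s * (1 + 3 * s ^ 2) := by positivity
      nlinarith
    _ = _ := one_mul _

theorem E_tendsto {s : ℝ} (hs0 : 0 < s) : Tendsto (fun n => E s (n + 2)) atTop (𝓝 0) := by
  have h : Tendsto (E s) atTop (𝓝 0) := by
    unfold E
    apply Real.tendsto_exp_neg_atTop_nhds_zero.comp
    apply Tendsto.const_mul_atTop (by positivity)
    exact Real.tendsto_sum_range_one_div_nat_succ_atTop
  exact h.comp (tendsto_add_atTop_nat 2)

theorem X_tendsto {s : ℝ} (hs1 : s ≤ 1 / 10) (hs0 : 0 < s) : Tendsto (X s) atTop (𝓝 0) := by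
  rw [← tendsto_add_atTop_iff_nat 2]
  exact squeeze_zero_norm (X_bound hs1 hs0) (E_tendsto hs0)

/-- the telescoping identity -/
theorem telescope (s : ℝ) (M : ℕ) : X s M = -(s ^ 2) * ∑ m ∈ Finset.range M, t s m +
    (s ^ 2 + c s * b s) * ∑ m ∈ Finset.range M, t s m / (m + 1) := by
  induction M with
  | zero => unfold X; simp
  | succ M ih =>
    rw [Finset.sum_range_succ, Finset.sum_range_succ]
    have h : (M : ℂ) + 1 ≠ 0 := Nat.cast_add_one_ne_zero M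
    have e : X s (M + 1) = X s M - s ^ 2 * t s M +
        (s ^ 2 + c s * b s) * (t s M / (M + 1)) := by
      unfold X t
      rw [pc_succ, pc_succ]
      have e1 : c s + b s = 1 - s ^ 2 := by unfold c b; ring
      push_cast
      field_simp
      linear_combination (pc (c s) M * pc (b s) M * M) * e1
    rw [e, ih]
    ring

noncomputable def qs (s : ℝ) (M : ℕ) : ℂ := ∑ m ∈ Finset.range M, t s m / (m + 1)

theorem term_bound {s : ℝ} (hs1 : s ≤ 1 / 10) (hs0 : 0 < s) (n : ℕ) :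
    ‖t s (n + 2) / (((n + 2 : ℕ) : ℂ) + 1)‖ ≤
    s * (1 + 3 * s ^ 2) * (1 / ((n + 1 : ℝ)) - 1 / ((n + 2 : ℝ))) := by
  have h1 := norm_t hs1 hs0 n
  have hn : (0 : ℝ) ≤ n := Nat.cast_nonneg n
  have e2 : ‖((n + 2 : ℕ) : ℂ) + 1‖ = (n : ℝ) + 3 := by
    have : ((n + 2 : ℕ) : ℂ) + 1 = ((n + 3 : ℕ) : ℂ) := by push_cast; ring
    rw [this, norm_natCast]; push_cast; ring
  rw [norm_div, e2, div_le_iff₀ (by linarith)]
  refine h1.trans ?_
  have e3 : s * (1 + 3 * s ^ 2) * (1 / ((n + 1 : ℝ)) - 1 / ((n + 2 : ℝ))) * (n + 3) =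
      s * (1 + 3 * s ^ 2) * (n + 3) / ((n + 2) * (n + 1)) * 1 := by
    field_simp
    ring
  rw [e3]
  exact mul_le_mul_of_nonneg_left (E_le s _) (by positivity)

theorem qs_bound {s : ℝ} (hs1 : s ≤ 1 / 10) (hs0 : 0 < s) (n : ℕ) :
    ‖qs s (n + 2) - qs s 2‖ ≤ s * (1 + 3 * s ^ 2) * (1 - 1 / ((n + 1 : ℝ))) := by
  induction n with
  | zero => simp
  | succ n ih =>
    have e : qs s (n + 1 + 2) = qs s (n + 2) + t s (n + 2) / (((n + 2 : ℕ) : ℂ) + 1) := by
      unfold qs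
      rw [show n + 1 + 2 = (n + 2) + 1 by ring, Finset.sum_range_succ]
    rw [e]
    have h1 := term_bound hs1 hs0 n
    have h2 : qs s (n + 2) + t s (n + 2) / (((n + 2 : ℕ) : ℂ) + 1) - qs s 2 =
        (qs s (n + 2) - qs s 2) + t s (n + 2) / (((n + 2 : ℕ) : ℂ) + 1) := by ring
    rw [h2]
    refine (norm_add_le _ _).trans ?_
    refine (add_le_add ih h1).trans (le_of_eq ?_)
    push_cast
    ring

theorem summable_q {s : ℝ} (hs1 : s ≤ 1 / 10) (hs0 : 0 < s) :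
    Summable (fun m : ℕ => t s m / ((m : ℂ) + 1)) := by
  rw [← summable_nat_add_iff 2]
  apply Summable.of_norm_bounded (g := fun n : ℕ => 1 / ((n + 1 : ℕ) : ℝ) ^ 2)
  · exact (summable_nat_add_iff 1).mpr (Real.summable_one_div_nat_pow.mpr one_lt_two)
  · intro n
    refine (term_bound hs1 hs0 n).trans ?_
    have hn : (0:ℝ) ≤ n := Nat.cast_nonneg n
    have e3 : 1 / ((n + 1 : ℝ)) - 1 / ((n + 2 : ℝ)) = 1 / ((n + 1) * (n + 2)) := by
      field_simp
      ring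
    rw [e3]
    push_cast
    have h1 : 1 / (((n : ℝ) + 1) * (n + 2)) ≤ 1 / ((n : ℝ) + 1) ^ 2 := by
      apply one_div_le_one_div_of_le (by positivity)
      nlinarith
    have h2 : 0 ≤ 1 / (((n : ℝ) + 1) * (n + 2)) := by positivity
    have h3 : s * (1 + 3 * s ^ 2) ≤ 1 := by nlinarith
    calc s * (1 + 3 * s ^ 2) * (1 / (((n : ℝ) + 1) * (n + 2)))
        ≤ 1 * (1 / (((n : ℝ) + 1) * (n + 2))) := mul_le_mul_of_nonneg_right h3 h2
      _ ≤ _ := by rw [one_mul]; exact h1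

theorem t_bound {s : ℝ} (hs1 : s ≤ 1 / 10) (hs0 : 0 < s) : ∃ C : ℝ, ∀ m, ‖t s m‖ ≤ C := by
  refine ⟨‖t s 0‖ + ‖t s 1‖ + 1, ?_⟩
  intro m
  have h0 := norm_nonneg (t s 0)
  have h1 := norm_nonneg (t s 1)
  match m with
  | 0 => linarith
  | 1 => linarith
  | n + 2 =>
    have h4 := X_bound hs1 hs0 n
    have h5 := E_le s (n + 2)
    unfold X at h4
    rw [norm_mul, norm_natCast] at h4
    have h6 : (1:ℝ) ≤ ((n + 2 : ℕ) : ℝ) := by exact_mod_cast (by omega : 1 ≤ n + 2)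
    nlinarith [norm_nonneg (t s (n + 2))]

theorem cb (s : ℝ) : c s * b s = ((-(2 - 2 * s ^ 2) : ℝ) : ℂ) + ((-(3 * s - s ^ 3) : ℝ) : ℂ) * I := by
  unfold c b
  push_cast
  linear_combination (-(s : ℂ) ^ 2) * I_sq

theorem exists_limit {s : ℝ} (hs1 : s ≤ 1 / 10) (hs0 : 0 < s) :
    ∃ l : ℂ, Tendsto (fun M => ∑ m ∈ Finset.range M, t s m) atTop (𝓝 l) ∧
    4 / 5 / s ≤ ‖l - 1‖ := by
  have hs2 : s ^ 2 ≤ 1 / 100 := by nlinarith
  obtain ⟨κ, hκ⟩ : ∃ κ, κ = (s ^ 2 + c s * b s : ℂ) := ⟨_, rfl⟩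
  obtain ⟨q, hq⟩ := summable_q hs1 hs0
  have hq' : Tendsto (qs s) atTop (𝓝 q) := hq.tendsto_sum_nat
  have hsne : (s : ℂ) ≠ 0 := by exact_mod_cast hs0.ne'
  refine ⟨(κ * q) / s ^ 2, ?_, ?_⟩
  · have h1 : (fun M => ∑ m ∈ Finset.range M, t s m) = fun M => (κ * qs s M - X s M) / s ^ 2 := by
      funext M
      rw [telescope s M, ← hκ]
      unfold qs
      field_simp
      ring
    rw [h1]
    have h2 := ((hq'.const_mul κ).sub (X_tendsto hs1 hs0)).div_const ((s : ℂ) ^ 2)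
    rw [sub_zero] at h2
    exact h2
  · have hkn : 197 / 100 ≤ ‖κ‖ := by
      have h1 := abs_re_le_norm κ
      have h2 : κ.re = -(2 - 3 * s ^ 2) := by
        rw [hκ, cb]
        simp [← ofReal_pow]
        ring
      rw [h2, abs_neg, abs_of_nonneg (by linarith)] at h1
      linarith
    have hq2 : qs s 2 = ((s ^ 2 : ℝ) : ℂ) + ((-(3 * s - s ^ 3) / 2 : ℝ) : ℂ) * I := by
      unfold qs
      rw [Finset.sum_range_succ, Finset.sum_range_one, t_zero, t_one, cb]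
      push_cast
      ring
    have hq2n : 149 / 100 * s ≤ ‖qs s 2‖ := by
      have h1 := abs_im_le_norm (qs s 2)
      have h2 : (qs s 2).im = -((3 * s - s ^ 3) / 2) := by
        rw [hq2, add_im, ofReal_im, im_ofReal_mul, I_im]
        ring
      have h3 : 149 / 100 * s ≤ (3 * s - s ^ 3) / 2 := by nlinarith
      rw [h2, abs_neg, abs_of_nonneg (by nlinarith)] at h1
      linarith
    have htail : ‖q - qs s 2‖ ≤ 103 / 100 * s := by
      have h1 : Tendsto (fun n => ‖qs s (n + 2) - qs s 2‖) atTop (𝓝 ‖q - qs s 2‖) :=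
        ((hq'.comp (tendsto_add_atTop_nat 2)).sub_const (qs s 2)).norm
      apply le_of_tendsto h1
      filter_upwards with n
      refine (qs_bound hs1 hs0 n).trans ?_
      have hn : (0:ℝ) ≤ n := Nat.cast_nonneg n
      have h2 : 0 ≤ 1 / ((n + 1 : ℝ)) := by positivity
      have h3 : s * (1 + 3 * s ^ 2) ≤ 103 / 100 * s := by nlinarith
      have h4 : 0 ≤ s * (1 + 3 * s ^ 2) := by positivity
      nlinarith
    have hqn : 46 / 100 * s ≤ ‖q‖ := by
      have h1 : ‖qs s 2‖ ≤ ‖q‖ + ‖q - qs s 2‖ := by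
        have := norm_sub_le q (q - qs s 2)
        rw [sub_sub_cancel] at this
        exact this
      linarith
    have h1 : ‖(κ * q) / (s : ℂ) ^ 2‖ = ‖κ‖ * ‖q‖ / s ^ 2 := by
      rw [norm_div, norm_mul, norm_pow, norm_real, Real.norm_eq_abs, abs_of_pos hs0]
    have h2 : (197 / 100) * (46 / 100 * s) ≤ ‖κ‖ * ‖q‖ :=
      mul_le_mul hkn hqn (by positivity) (norm_nonneg _)
    have h3 := norm_sub_norm_le ((κ * q) / (s : ℂ) ^ 2) 1
    rw [norm_one, h1] at h3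
    have h4 : 9 / 10 / s ≤ ‖κ‖ * ‖q‖ / s ^ 2 := by
      rw [div_le_div_iff₀ hs0 (by positivity)]
      nlinarith
    have h5 : 1 ≤ 1 / 10 / s := by
      rw [le_div_iff₀ hs0]
      linarith
    have h6 : 9 / 10 / s = 4 / 5 / s + 1 / 10 / s := by ring
    linarith

/-- there is a point `r` of `(0,1)` where the pairing is large -/
theorem exists_r {s K : ℝ} (hs1 : s ≤ 1 / 10) (hs0 : 0 < s) (hK : K < 4 / 5 / s) :
    ∃ r : ℝ, 0 < r ∧ r < 1 ∧ K < ‖(∑' n : ℕ, t s n * (r : ℂ) ^ n) - 1‖ := by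
  obtain ⟨l, hl, hl5⟩ := exists_limit hs1 hs0
  have h1 := Complex.tendsto_tsum_powerSeries_nhdsWithin_lt hl
  rw [tendsto_map'_iff] at h1
  have h2 : Tendsto (fun r : ℝ => ‖(∑' n : ℕ, t s n * (r : ℂ) ^ n) - 1‖) (𝓝[<] 1) (𝓝 ‖l - 1‖) :=
    (h1.sub_const 1).norm
  have h3 := h2.eventually (lt_mem_nhds (hK.trans_le hl5))
  have h4 : ∀ᶠ r : ℝ in 𝓝[<] 1, r < 1 := eventually_mem_nhdsWithin
  have h5 : ∀ᶠ r : ℝ in 𝓝[<] 1, 0 < r := by
    apply mem_nhdsWithin_of_mem_nhds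
    exact lt_mem_nhds zero_lt_one
  obtain ⟨r, hr1, hr2, hr3⟩ := (h3.and (h4.and h5)).exists
  exact ⟨r, hr3, hr2, hr1⟩

/-! ### the neighbourhood function -/

theorem norm_P_small {s : ℝ} (hs1 : s ≤ 1 / 10) (hs0 : 0 < s) {z : ℂ}
    (hz : z ∈ Metric.ball (0:ℂ) 1) : ‖P (b s + 1) z‖ ≤ 119 / 100 := by
  unfold P
  rw [norm_exp]
  have hre : (-(b s + 1) * log (1 - z)).re = -(s * arg (1 - z)) := by
    unfold b
    simp [log_im]
  rw [hre]
  have harg := abs_arg_lt_pi_div_two_iff.mpr (Or.inl (one_sub_re hz))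
  have h1 : -(s * arg (1 - z)) ≤ 79 / 500 := by
    have h2 := (abs_lt.mp harg).1
    have h3 := Real.pi_lt_d2
    have h4 : s * (-(arg (1 - z))) ≤ s * (79 / 50) := by
      apply mul_le_mul_of_nonneg_left _ hs0.le
      linarith
    nlinarith
  calc Real.exp (-(s * arg (1 - z))) ≤ Real.exp (79 / 500) := Real.exp_le_exp.mpr h1
    _ ≤ 119 / 100 := by
      have h := Real.exp_bound_div_one_sub_of_interval (x := 79 / 500) (by norm_num) (by norm_num)
      refine h.trans ?_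
      norm_num

theorem P_b (s : ℝ) {z : ℂ} (hz : z ∈ Metric.ball (0:ℂ) 1) :
    P (b s) z = (1 - z) * P (b s + 1) z := by
  have h := P_add (b s) 1 z
  rw [P_one hz] at h
  rw [h]
  have := one_sub_ne hz
  field_simp

theorem norm_b {s : ℝ} (hs1 : s ≤ 1 / 10) (hs0 : 0 < s) : ‖b s‖ ≤ 1006 / 1000 := by
  have h : ‖b s‖ ^ 2 ≤ (1006 / 1000) ^ 2 := by
    unfold b
    rw [← normSq_eq_norm_sq, normSq_apply]
    simp
    nlinarith
  exact le_of_sq_le_sq h (by norm_num)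

theorem norm_b2 {s : ℝ} (hs1 : s ≤ 1 / 10) (hs0 : 0 < s) : ‖b s - 2‖ ≤ 3003 / 1000 := by
  have h : ‖b s - 2‖ ^ 2 ≤ (3003 / 1000) ^ 2 := by
    unfold b
    rw [← normSq_eq_norm_sq, normSq_apply]
    simp
    nlinarith
  exact le_of_sq_le_sq h (by norm_num)

/-- the perturbation -/
noncomputable def u (s : ℝ) (κ η z : ℂ) : ℂ := z * (κ * (P (b s) (η * z) + -1 * 1))

theorem u_deriv (s : ℝ) (κ : ℂ) {η z : ℂ} (hη : ‖η‖ = 1) (hz : z ∈ Metric.ball (0:ℂ) 1) :
    HasDerivAt (u s κ η)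
      (κ * (P (b s) (η * z) - 1 + (η * z) * (b s * P (b s + 1) (η * z)))) z := by
  have hw : η * z ∈ ball (0 : ℂ) 1 := by simpa [hη] using hz
  have h1 : HasDerivAt (fun w : ℂ => η * w) η z := by
    simpa using (hasDerivAt_id z).const_mul η
  have h2 := (P_deriv (b s) hw).comp z h1
  have h3 := (hasDerivAt_id z).mul ((h2.add_const (-1 * 1 : ℂ)).const_mul κ)
  refine h3.congr_deriv ?_
  simp only [id, Function.comp]
  ring

theorem PS_const (x : ℂ) : PS (fun _ => x) (fun n => if n = 0 then x else 0) := by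
  intro z _
  have h := hasSum_ite_eq (0 : ℕ) x
  have e : (fun n : ℕ => (if n = 0 then x else 0) * z ^ n) = (fun n : ℕ => if n = 0 then x else 0) := by
    funext n
    by_cases hn : n = 0
    · simp [hn]
    · simp [hn]
  rw [e]
  exact h

theorem PS_u (s : ℝ) (κ : ℂ) {η : ℂ} (hη : ‖η‖ = 1) :
    PS (u s κ η) (shiftSeq (fun n => κ * (pc (b s) n * η ^ n + -1 * (if n = 0 then 1 else 0)))) :=
  (((PS_P (b s)).rot hη).add ((PS_const 1).const_mul (-1))).const_mul κ |>.shift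

theorem u_norm {s : ℝ} (hs1 : s ≤ 1 / 10) (hs0 : 0 < s) {κ η : ℂ} (hη : ‖η‖ = 1) {z : ℂ}
    (hz : z ∈ Metric.ball (0:ℂ) 1) :
    ‖deriv (u s κ η) z - u s κ η z / z‖ + ‖deriv (u s κ η) z + u s κ η z / z‖ ≤ 10 * ‖κ‖ := by
  rw [(u_deriv s κ hη hz).deriv]
  have e0 : u s κ η z / z = κ * (P (b s) (η * z) - 1) := by
    by_cases h0 : z = 0
    · simp [u, h0, P_zero]
    · unfold u
      field_simp
      ring
  have hw : η * z ∈ ball (0 : ℂ) 1 := by simpa [hη] using hz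
  rw [e0]
  generalize η * z = w at hw
  have e1 : κ * (P (b s) w - 1 + w * (b s * P (b s + 1) w)) - κ * (P (b s) w - 1) =
      κ * (w * (b s * P (b s + 1) w)) := by ring
  have e2 : κ * (P (b s) w - 1 + w * (b s * P (b s + 1) w)) + κ * (P (b s) w - 1) =
      κ * (P (b s + 1) w * (2 + (b s - 2) * w) - 2) := by
    rw [P_b s hw]
    ring
  rw [e1, e2]
  have hz1 : ‖w‖ < 1 := by simpa using hw
  have hP := norm_P_small hs1 hs0 hw
  have hPn := norm_nonneg (P (b s + 1) w)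
  have n1 : ‖κ * (w * (b s * P (b s + 1) w))‖ ≤ ‖κ‖ * (1006 / 1000 * (119 / 100)) := by
    rw [norm_mul, norm_mul, norm_mul]
    apply mul_le_mul_of_nonneg_left _ (norm_nonneg _)
    have h1 : ‖b s‖ * ‖P (b s + 1) w‖ ≤ 1006 / 1000 * (119 / 100) :=
      mul_le_mul (norm_b hs1 hs0) hP hPn (by norm_num)
    have h2 : 0 ≤ ‖b s‖ * ‖P (b s + 1) w‖ := by positivity
    nlinarith [norm_nonneg w]
  have n2 : ‖κ * (P (b s + 1) w * (2 + (b s - 2) * w) - 2)‖ ≤
      ‖κ‖ * (119 / 100 * (5003 / 1000) + 2) := by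
    rw [norm_mul]
    apply mul_le_mul_of_nonneg_left _ (norm_nonneg _)
    have h1 : ‖2 + (b s - 2) * w‖ ≤ 5003 / 1000 := by
      have a1 := norm_add_le (2 : ℂ) ((b s - 2) * w)
      have a2 : ‖(2:ℂ)‖ = 2 := by simp
      have a3 : ‖(b s - 2) * w‖ ≤ 3003 / 1000 := by
        rw [norm_mul]
        have := norm_b2 hs1 hs0
        nlinarith [norm_nonneg (b s - 2), norm_nonneg w]
      linarith
    have h2 : ‖P (b s + 1) w * (2 + (b s - 2) * w)‖ ≤ 119 / 100 * (5003 / 1000) := by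
      rw [norm_mul]
      exact mul_le_mul hP h1 (norm_nonneg _) (by norm_num)
    have h3 := norm_sub_le (P (b s + 1) w * (2 + (b s - 2) * w)) 2
    have a2 : ‖(2:ℂ)‖ = 2 := by simp
    linarith
  nlinarith [norm_nonneg κ]

/-! ### Hadamard products with `Q (c s)` -/

theorem coeff_eq {f : ℂ → ℂ} {a : ℕ → ℂ} (h : PS f a) : coeff f = a :=
  (PS.of_diff h.differentiableOn).unique h

theorem coeff_Q (s : ℝ) : coeff (Q (c s)) = shiftSeq (pc (c s)) := coeff_eq (PS_Q _)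

theorem norm_coeff_Q {s : ℝ} (hs1 : s ≤ 1 / 10) (hs0 : 0 < s) (n : ℕ) :
    ‖coeff (Q (c s)) n‖ ≤ n := by
  rw [coeff_Q]
  cases n with
  | zero => simp [shiftSeq]
  | succ m =>
    have := norm_pc_c_le' (s := s) (by linarith) hs0 m
    simpa [shiftSeq] using this

theorem PS_hadamard {f h : ℂ → ℂ} (hf : DifferentiableOn ℂ f (ball 0 1))
    (hh : ∀ n : ℕ, ‖coeff h n‖ ≤ n) :
    PS (hadamard f h) (fun n => coeff f n * coeff h n) := by
  intro z hz
  have hz' : ‖z‖ < 1 := by simpa using hz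
  obtain ⟨ρ, hρ1, hρ2⟩ := exists_between hz'
  have hρ0 : 0 < ρ := lt_of_le_of_lt (norm_nonneg z) hρ1
  have hs := (PS.of_diff hf).summable_norm hρ0.le hρ2
  obtain ⟨C, hC⟩ : ∃ C, ∀ n, ‖coeff f n‖ * ρ ^ n ≤ C := by
    obtain ⟨C, hC⟩ := hs.tendsto_atTop_zero.bddAbove_range
    exact ⟨C, fun n => hC ⟨n, rfl⟩⟩
  have hq : ‖‖z‖ / ρ‖ < 1 := by
    rw [Real.norm_eq_abs, abs_of_nonneg (by positivity), div_lt_one hρ0]
    exact hρ1
  have hg := (summable_pow_mul_geometric_of_norm_lt_one 1 hq).mul_left C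
  have hsum : Summable (fun n : ℕ => coeff f n * coeff h n * z ^ n) := by
    apply Summable.of_norm_bounded hg
    intro n
    rw [norm_mul, norm_mul, norm_pow]
    have h1 := hC n
    have h2 := hh n
    calc ‖coeff f n‖ * ‖coeff h n‖ * ‖z‖ ^ n
        = (‖coeff f n‖ * ρ ^ n) * (‖coeff h n‖ * (‖z‖ / ρ) ^ n) := by
          rw [div_pow]
          field_simp
      _ ≤ C * (n * (‖z‖ / ρ) ^ n) := by
          apply mul_le_mul h1 _ (by positivity) (le_trans (by positivity) h1)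
          gcongr
      _ = _ := by rw [pow_one]
  exact hsum.hasSum

theorem hadamard_add {f : ℂ → ℂ} (hf : DifferentiableOn ℂ f (ball 0 1)) {s : ℝ}
    (hs1 : s ≤ 1 / 10) (hs0 : 0 < s) {κ η z : ℂ} {r : ℝ} (hη : ‖η‖ = 1) (hr0 : 0 < r) (hr1 : r < 1)
    (hz : η * z = r) :
    hadamard (fun z => f z + u s κ η z) (Q (c s)) z =
      hadamard f (Q (c s)) z + κ * z * ((∑' n : ℕ, t s n * (r : ℂ) ^ n) - 1) := by
  have hzn : ‖z‖ = r := by
    have := congrArg norm hz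
    rw [norm_mul, hη, one_mul, norm_real, Real.norm_eq_abs, abs_of_pos hr0] at this
    exact this
  have hzb : z ∈ ball (0 : ℂ) 1 := by rw [mem_ball_zero_iff, hzn]; exact hr1
  have hg : coeff (fun z => f z + u s κ η z) = fun n => coeff f n +
      shiftSeq (fun n => κ * (pc (b s) n * η ^ n + -1 * (if n = 0 then 1 else 0))) n :=
    coeff_eq ((PS.of_diff hf).add (PS_u s κ hη))
  have h1 := PS_hadamard hf (norm_coeff_Q hs1 hs0) z hzb
  obtain ⟨C, hC⟩ := t_bound hs1 hs0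
  have hsum : Summable (fun n : ℕ => t s n * (r : ℂ) ^ n) := by
    apply Summable.of_norm_bounded (g := fun n : ℕ => C * r ^ n)
    · exact (summable_geometric_of_lt_one hr0.le hr1).mul_left C
    · intro n
      rw [norm_mul, norm_pow, norm_real, Real.norm_eq_abs, abs_of_pos hr0]
      exact mul_le_mul_of_nonneg_right (hC n) (by positivity)
  have h2 : HasSum (fun n => shiftSeq (fun n => κ * (pc (b s) n * η ^ n +
      -1 * (if n = 0 then 1 else 0))) n * coeff (Q (c s)) n * z ^ n)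
      (κ * z * ((∑' n : ℕ, t s n * (r : ℂ) ^ n) - 1)) := by
    rw [← hasSum_nat_add_iff' 1]
    simp only [Finset.range_one, Finset.sum_singleton, shiftSeq, zero_mul, sub_zero]
    have a2 := (hasSum_ite_eq (0 : ℕ) (1 : ℂ))
    have a3 := (hsum.hasSum.sub a2).mul_left (κ * z)
    refine a3.congr_fun ?_
    intro n
    rw [coeff_Q]
    simp only [shiftSeq]
    have e : (r : ℂ) ^ n = η ^ n * z ^ n := by rw [← hz, mul_pow]
    rw [e]
    unfold t
    cases n with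
    | zero => simp [pc]
    | succ m => simp; ring
  have h3 := h1.add h2
  unfold hadamard at h3 ⊢
  rw [← h3.tsum_eq]
  congr 1
  funext n
  rw [hg]
  ring

/-- Every neighbourhood `Σ_δ(f)`, `f ∈ A`, `δ > 0`, leaves the dual of `S`. -/
theorem main {f : ℂ → ℂ} (hf : ClassA f) {δ : ℝ} (hδ : 0 < δ) :
    ∃ g ∈ Sigma δ f, ∃ h, ClassS h ∧ ∃ z : ℂ, 0 < ‖z‖ ∧ ‖z‖ < 1 ∧ hadamard g h z = 0 := by
  obtain ⟨s, hs⟩ : ∃ s, s = min (1 / 10) (δ / 10) := ⟨_, rfl⟩
  have hs0 : 0 < s := by rw [hs]; positivity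
  have hs1 : s ≤ 1 / 10 := by rw [hs]; exact min_le_left _ _
  have hsδ : s ≤ δ / 10 := by rw [hs]; exact min_le_right _ _
  have hS : ClassS (Q (c s)) := Q_mem hs0 (by linarith)
  by_cases hH : ∃ z : ℂ, 0 < ‖z‖ ∧ ‖z‖ < 1 ∧ hadamard f (Q (c s)) z = 0
  · obtain ⟨z, hz0, hz1, hz⟩ := hH
    refine ⟨f, ⟨hf, ?_⟩, Q (c s), hS, z, hz0, hz1, hz⟩
    intro w _
    simp only [sub_self, zero_div, add_zero, norm_zero]
    linarith
  push Not at hH
  have hK : 5 / δ < 4 / 5 / s := by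
    rw [div_lt_div_iff₀ hδ hs0]
    linarith
  obtain ⟨r, hr0, hr1, hr⟩ := exists_r hs1 hs0 hK
  -- the function `ω`
  have hPS := PS_hadamard hf.1 (norm_coeff_Q hs1 hs0)
  have hd := hPS.differentiableOn
  have hH0 : hadamard f (Q (c s)) 0 = 0 := by
    have h1 := hPS 0 (mem_ball_self one_pos)
    have h2 := hasSum_single (f := fun n => coeff f n * coeff (Q (c s)) n * (0 : ℂ) ^ n) 0
      (fun n hn => by simp [hn])
    rw [h1.unique h2]
    simp [coeff, hf.2.1]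
  have hH1 : deriv (hadamard f (Q (c s))) 0 = 1 := by
    have h1 := congrFun (coeff_eq hPS) 1
    simp only [coeff, iteratedDeriv_one, Nat.factorial_one, Nat.cast_one, div_one] at h1
    rw [h1, hf.2.2, hS.1.2.2, one_mul]
  obtain ⟨ω, hω⟩ : ∃ ω, ω = dslope (hadamard f (Q (c s))) 0 := ⟨_, rfl⟩
  have hωd : DifferentiableOn ℂ ω (ball 0 1) := by
    rw [hω]
    exact (Complex.differentiableOn_dslope (isOpen_ball.mem_nhds (mem_ball_self one_pos))).mpr hd
  have hω0 : ω 0 = 1 := by rw [hω, dslope_same, hH1]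
  have hωz : ∀ z, hadamard f (Q (c s)) z = z * ω z := by
    intro z
    by_cases hz : z = 0
    · rw [hz, hH0, zero_mul]
    · rw [hω, dslope_of_ne _ hz, slope_def_field, hH0, sub_zero, sub_zero]
      field_simp
  have hωne : ∀ z ∈ ball (0 : ℂ) 1, ω z ≠ 0 := by
    intro z hz h
    by_cases hz0 : z = 0
    · rw [hz0, hω0] at h
      exact one_ne_zero h
    · apply hH z (norm_pos_iff.mpr hz0) (by simpa using hz)
      rw [hωz, h, mul_zero]
  have hsub : closedBall (0 : ℂ) r ⊆ ball 0 1 := closedBall_subset_ball hr1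
  have hinv : DiffContOnCl ℂ (fun z => (ω z)⁻¹) (ball 0 r) := by
    apply DifferentiableOn.diffContOnCl
    rw [closure_ball _ hr0.ne']
    exact (hωd.mono hsub).inv (fun z hz => hωne z (hsub hz))
  obtain ⟨z, hzf, hzmax⟩ := Complex.exists_mem_frontier_isMaxOn_norm
    (isBounded_ball (x := (0 : ℂ)) (r := r)) (nonempty_ball.mpr hr0) hinv
  rw [frontier_ball _ hr0.ne', mem_sphere_zero_iff_norm] at hzf
  have hz1 : ‖ω z‖ ≤ 1 := by
    have h1 : ‖(ω 0)⁻¹‖ ≤ ‖(ω z)⁻¹‖ := hzmax (subset_closure (mem_ball_self hr0))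
    rw [norm_inv, norm_inv, hω0, norm_one, inv_one] at h1
    have h2 : 0 < ‖ω z‖ := norm_pos_iff.mpr (hωne z (hsub (by
      rw [mem_closedBall_zero_iff, hzf])))
    exact (one_le_inv₀ h2).mp h1
  have hz0 : z ≠ 0 := by
    intro h
    rw [h, norm_zero] at hzf
    exact hr0.ne hzf
  have hrc : (r : ℂ) ≠ 0 := by exact_mod_cast hr0.ne'
  obtain ⟨η, hηd⟩ : ∃ η : ℂ, η = (starRingEnd ℂ) z / r := ⟨_, rfl⟩
  have hη : ‖η‖ = 1 := by
    rw [hηd, norm_div, Complex.norm_conj, hzf, norm_real, Real.norm_eq_abs, abs_of_pos hr0,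
      div_self hr0.ne']
  have hηz : η * z = r := by
    rw [hηd, div_mul_eq_mul_div, ← normSq_eq_conj_mul_self, normSq_eq_norm_sq, hzf]
    push_cast
    field_simp
  obtain ⟨Ψ, hΨ⟩ : ∃ Ψ, Ψ = (∑' n : ℕ, t s n * (r : ℂ) ^ n) - 1 := ⟨_, rfl⟩
  rw [← hΨ] at hr
  have hΨpos : 0 < ‖Ψ‖ := lt_trans (by positivity) hr
  have hΨ0 : Ψ ≠ 0 := norm_pos_iff.mp hΨpos
  obtain ⟨κ, hκ⟩ : ∃ κ, κ = -(ω z) / Ψ := ⟨_, rfl⟩
  have hκn : 10 * ‖κ‖ < 2 * δ := by
    rw [hκ, norm_div, norm_neg]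
    have h1 : ‖ω z‖ / ‖Ψ‖ ≤ 1 / ‖Ψ‖ := by gcongr
    have h2 : 1 / ‖Ψ‖ < 1 / (5 / δ) := one_div_lt_one_div_of_lt (by positivity) hr
    have h3 : 1 / (5 / δ) = δ / 5 := by field_simp
    linarith
  have hu0 : deriv (u s κ η) 0 = 0 := by
    rw [(u_deriv s κ hη (mem_ball_self one_pos)).deriv]
    simp [P_zero]
  have hud : ∀ w ∈ ball (0 : ℂ) 1, DifferentiableAt ℂ (u s κ η) w := fun w hw =>
    (u_deriv s κ hη hw).differentiableAt
  have hfd : ∀ w ∈ ball (0 : ℂ) 1, DifferentiableAt ℂ f w := fun w hw =>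
    hf.1.differentiableAt (isOpen_ball.mem_nhds hw)
  have hgd : ∀ w ∈ ball (0 : ℂ) 1, deriv (fun z => f z + u s κ η z) w =
      deriv f w + deriv (u s κ η) w := fun w hw => deriv_add (hfd w hw) (hud w hw)
  refine ⟨fun z => f z + u s κ η z, ⟨⟨?_, ?_, ?_⟩, ?_⟩, Q (c s), hS, z, ?_, ?_, ?_⟩
  · exact fun w hw => ((hfd w hw).add (hud w hw)).differentiableWithinAt
  · simp [hf.2.1, u]
  · rw [hgd 0 (mem_ball_self one_pos), hu0, hf.2.2, add_zero]
  · intro w hw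
    rw [hgd w hw, add_sub_cancel_left, add_sub_cancel_left]
    exact (u_norm hs1 hs0 hη hw).trans_lt hκn
  · rw [hzf]; exact hr0
  · rw [hzf]; exact hr1
  · rw [hadamard_add hf.1 hs1 hs0 hη hr0 hr1 hηz, ← hΨ, hωz, hκ]
    field_simp
    ring

theorem geometric_mem {x : ℂ} (hx : ‖x‖ ≤ 1) : ClassA (fun z => z / (1 - x * z)) := by
  have hne : ∀ z ∈ ball (0 : ℂ) 1, 1 - x * z ≠ 0 := by
    intro z hz h
    have h1 : x * z = 1 := by linear_combination -h
    have h2 := congrArg norm h1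
    rw [norm_mul, norm_one] at h2
    rw [mem_ball_zero_iff] at hz
    nlinarith [norm_nonneg x, norm_nonneg z]
  have hder : ∀ z ∈ ball (0 : ℂ) 1, HasDerivAt (fun z => z / (1 - x * z))
      (1 / (1 - x * z) ^ 2) z := by
    intro z hz
    have h1 : HasDerivAt (fun z : ℂ => 1 - x * z) (-x) z := by
      simpa using ((hasDerivAt_id z).const_mul x).const_sub 1
    have h2 := (hasDerivAt_id z).div h1 (hne z hz)
    refine h2.congr_deriv ?_
    simp only [id]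
    congr 1
    ring
  refine ⟨fun z hz => (hder z hz).differentiableAt.differentiableWithinAt, by simp, ?_⟩
  rw [(hder 0 (mem_ball_self one_pos)).deriv]
  simp

/-- Main theorem. (1) For every `f ∈ A` and every `δ > 0` the neighbourhood `Σ_δ(f)` contains a `g`
with `(g * h)(z₀) = 0` for some `h ∈ S` and some `0 < |z₀| < 1`. (2) In particular, for every
pair `(x,ρ)` with `|x| ≤ ρ ≤ 1` the inclusion `Σ_γ(z/(1-xz)) ⊆ S^*`, `γ = 1/(1+ρ)²`, fails. -/
theorem result :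
    (∀ f : ℂ → ℂ, ClassA f → ∀ δ : ℝ, 0 < δ → ∃ g ∈ Sigma δ f, ∃ h, ClassS h ∧
      ∃ z : ℂ, 0 < ‖z‖ ∧ ‖z‖ < 1 ∧ hadamard g h z = 0) ∧
    (∀ (x : ℂ) (ρ : ℝ), ‖x‖ ≤ ρ → ρ ≤ 1 →
      ¬ Sigma (1 / (1 + ρ) ^ 2) (fun z => z / (1 - x * z)) ⊆ dualS) := by
  refine ⟨fun f hf δ hδ => main hf hδ, ?_⟩
  intro x ρ hx hρ hsub
  have hρ0 : 0 ≤ ρ := (norm_nonneg x).trans hx
  obtain ⟨g, hg, h, hh, z, hz0, hz1, hz⟩ := main (geometric_mem (hx.trans hρ))
    (show 0 < 1 / (1 + ρ) ^ 2 by positivity)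
  exact (hsub hg).2 h hh z hz0 hz1 hz

end Pool.Agent.Results.MP_061dbe_an.NoSigmaNeighbourhood
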